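import Pool.Agent.W13.Pav.Basic
/-!
Matroids from words, invariants (helper13).
-/
set_option autoImplicit false

namespace Pool.Agent.W13.Pav

open Finset

/-- independence predicate of a word -/
def Ind (w : ℕ) (I : Finset V) : Prop := w.testBit (mk I) = true

theorem ind_erase {w : ℕ} (h : chkDown w = true) {I : Finset V} (hI : Ind w I) {e : V}
    (he : e ∈ I) : Ind w (I.erase e) := by
  unfold chkDown at h
  rw [List.all_eq_true] at h
  have h1 := h (mk I) (List.mem_range.2 (mk_lt I))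
  unfold Ind at hI ⊢
  rw [hI] at h1
  simp only [Bool.not_true, Bool.false_or] at h1
  rw [List.all_eq_true] at h1
  have h2 := h1 (e : ℕ) (List.mem_range.2 e.2)
  rw [(mem_iff I e).1 he] at h2
  simp only [Bool.not_true, Bool.false_or] at h2
  rwa [mk_erase he]

theorem ind_subset {w : ℕ} (h : chkDown w = true) {I J : Finset V} (hJ : Ind w J)
    (hIJ : I ⊆ J) : Ind w I := by
  induction hn : (J \ I).card generalizing J with
  | zero =>
    have : J \ I = ∅ := Finset.card_eq_zero.1 hn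
    have h2 : J ⊆ I := Finset.sdiff_eq_empty_iff_subset.1 this
    rwa [Finset.Subset.antisymm hIJ h2]
  | succ n ih =>
    have hne : (J \ I).Nonempty := by
      rw [← Finset.card_pos]; omega
    obtain ⟨e, he⟩ := hne
    rw [Finset.mem_sdiff] at he
    apply ih (ind_erase h hJ he.1)
    · intro x hx
      rw [Finset.mem_erase]
      exact ⟨fun hxe => he.2 (hxe ▸ hx), hIJ hx⟩
    · rw [Finset.erase_sdiff_comm, Finset.card_erase_of_mem (Finset.mem_sdiff.2 he), hn]
      rfl

theorem ind_aug1 {w : ℕ} (h : chkAug w = true) {I J : Finset V} (hI : Ind w I) (hJ : Ind w J)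
    (hc : J.card = I.card + 1) : ∃ e ∈ J, e ∉ I ∧ Ind w (insert e I) := by
  unfold chkAug at h
  rw [List.all_eq_true] at h
  have hJ7 : J.card ≤ 7 := by
    have := Finset.card_le_univ J
    simpa using this
  have h1 := h I.card (List.mem_range.2 (by omega))
  rw [List.all_eq_true] at h1
  have h2 := h1 (mk I) (mk_mem_ms I)
  unfold Ind at hI hJ
  rw [hI] at h2
  simp only [Bool.not_true, Bool.false_or] at h2
  rw [List.all_eq_true] at h2
  have h3 := h2 (mk J) (hc ▸ mk_mem_ms J)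
  rw [hJ] at h3
  simp only [Bool.not_true, Bool.false_or] at h3
  rw [List.any_eq_true] at h3
  obtain ⟨e, he, h4⟩ := h3
  rw [List.mem_range] at he
  simp only [Bool.and_eq_true, Bool.not_eq_true', Bool.not_eq_eq_eq_not, Bool.not_true] at h4
  obtain ⟨⟨h5, h6⟩, h7⟩ := h4
  refine ⟨⟨e, he⟩, ?_, ?_, ?_⟩
  · rw [mem_iff]; exact h5
  · rw [mem_iff, Bool.not_eq_true]; exact h6
  · unfold Ind
    rw [mk_insert]
    · exact h7
    · rw [mem_iff, Bool.not_eq_true]; exact h6

theorem ind_aug {w : ℕ} (hd : chkDown w = true) (h : chkAug w = true) {I J : Finset V}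
    (hI : Ind w I) (hJ : Ind w J) (hc : I.card < J.card) :
    ∃ e ∈ J, e ∉ I ∧ Ind w (insert e I) := by
  obtain ⟨K, hKJ, hK⟩ := Finset.exists_subset_card_eq (s := J) (n := I.card + 1) (by omega)
  obtain ⟨e, he, h1, h2⟩ := ind_aug1 h hI (ind_subset hd hJ hKJ) hK
  exact ⟨e, hKJ he, h1, h2⟩

theorem chk_parts {w : ℕ} (h : chk w = true) :
    chkDown w = true ∧ chkAug w = true ∧ chkSimple w = true ∧ chkNon w = true := by
  unfold chk at h
  simp only [Bool.and_eq_true] at h
  tauto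

theorem ind_small {w : ℕ} (h : chkSimple w = true) {I : Finset V} (hI : I.card ≤ 2) :
    Ind w I := by
  unfold chkSimple at h
  rw [List.all_eq_true] at h
  have h1 := h I.card (List.mem_range.2 (by omega))
  rw [List.all_eq_true] at h1
  exact h1 _ (mk_mem_ms I)

theorem ind_non {w : ℕ} (h : chkNon w = true) :
    ∃ C B : Finset V, ¬ Ind w C ∧ Ind w B ∧ C.card < B.card := by
  unfold chkNon at h
  rw [List.any_eq_true] at h
  obtain ⟨k, hk, h1⟩ := h
  rw [List.mem_range] at hk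
  rw [List.any_eq_true] at h1
  obtain ⟨a, ha, h2⟩ := h1
  rw [Bool.and_eq_true] at h2
  obtain ⟨h3, h4⟩ := h2
  rw [List.any_eq_true] at h4
  obtain ⟨b, hb, h5⟩ := h4
  obtain ⟨ha1, ha2⟩ := ms_spec k (by omega) a ha
  obtain ⟨hb1, hb2⟩ := ms_spec (k + 1) (by omega) b hb
  refine ⟨um a, um b, ?_, ?_, ?_⟩
  · unfold Ind; rw [mk_um a ha1]; simpa using h3
  · unfold Ind; rw [mk_um b hb1]; exact h5
  · rw [card_um a ha1, card_um b hb1, ha2, hb2]; omega

/-- the matroid of a word -/
noncomputable def Mw (w : ℕ) (h : chk w = true) : Matroid V :=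
  (IndepMatroid.ofFinset Set.univ (Ind w)
    (ind_small (chk_parts h).2.2.1 (by simp))
    (fun _ _ hJ hIJ => ind_subset (chk_parts h).1 hJ hIJ)
    (fun _ _ hI hJ hc => ind_aug (chk_parts h).1 (chk_parts h).2.1 hI hJ hc)
    (fun _ _ => Set.subset_univ _)).matroid

theorem Mw_E (w : ℕ) (h : chk w = true) : (Mw w h).E = Set.univ := rfl

theorem Mw_indep (w : ℕ) (h : chk w = true) (I : Finset V) :
    (Mw w h).Indep (I : Set V) ↔ Ind w I := by
  unfold Mw
  rw [IndepMatroid.matroid_indep_iff, IndepMatroid.ofFinset_indep]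

/-- isomorphism of words -/
def Rel (w w' : ℕ) : Prop :=
  ∃ σ : Equiv.Perm V, ∀ I : Finset V, Ind w I ↔ Ind w' (I.image σ)

theorem Rel.symm {w w' : ℕ} (h : Rel w w') : Rel w' w := by
  obtain ⟨σ, hσ⟩ := h
  refine ⟨σ.symm, fun I => ?_⟩
  rw [hσ (I.image σ.symm), Finset.image_image]
  simp

/-- action on masks -/
def sm (σ : Equiv.Perm V) (m : ℕ) : ℕ := mk ((um m).image σ)

theorem sm_lt (σ : Equiv.Perm V) (m : ℕ) : sm σ m < 128 := mk_lt _

theorem sm_inj {σ : Equiv.Perm V} {a b : ℕ} (ha : a < 128) (hb : b < 128)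
    (h : sm σ a = sm σ b) : a = b := by
  have h1 := mk_inj h
  have h2 := Finset.image_injective σ.injective h1
  rw [← mk_um a ha, ← mk_um b hb, h2]

theorem um_sm (σ : Equiv.Perm V) (m : ℕ) : um (sm σ m) = (um m).image σ := um_mk _

theorem sm_mem {σ : Equiv.Perm V} {k m : ℕ} (hk : k < 8) (hm : m ∈ ms k) : sm σ m ∈ ms k := by
  obtain ⟨h1, h2⟩ := ms_spec k hk m hm
  have h3 := mem_ms (sm σ m) (sm_lt σ m)
  rw [← card_um _ (sm_lt σ m), um_sm, Finset.card_image_of_injective _ σ.injective,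
    card_um m h1, h2] at h3
  exact h3

theorem sm_and {σ : Equiv.Perm V} {a b : ℕ} (ha : a < 128) (hb : b < 128) :
    pcn (sm σ a &&& sm σ b) = pcn (a &&& b) := by
  have h1 : sm σ a &&& sm σ b < 128 := lt_of_le_of_lt Nat.and_le_left (sm_lt σ a)
  have h2 : a &&& b < 128 := lt_of_le_of_lt Nat.and_le_left ha
  rw [← card_um _ h1, ← card_um _ h2, ← um_inter, ← um_inter, um_sm, um_sm,
    ← Finset.image_inter _ _ σ.injective, Finset.card_image_of_injective _ σ.injective]

theorem sm_ind {w w' : ℕ} {σ : Equiv.Perm V}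
    (h : ∀ I : Finset V, Ind w I ↔ Ind w' (I.image σ)) {m : ℕ} (hm : m < 128)
    (hw : w.testBit m = true) : w'.testBit (sm σ m) = true := by
  have := (h (um m)).1 (by unfold Ind; rw [mk_um m hm]; exact hw)
  exact this

theorem len_le {α : Type*} {l l' : List α} (hl : l.Nodup) (s : α → α)
    (hs : ∀ x ∈ l, ∀ y ∈ l, s x = s y → x = y) (hm : ∀ x ∈ l, s x ∈ l') :
    l.length ≤ l'.length := by
  have h1 : (l.map s).Nodup := List.Nodup.map_on (fun x hx y hy h => hs x hx y hy h) hl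
  have h2 : (l.map s) ⊆ l' := by
    intro x hx
    rw [List.mem_map] at hx
    obtain ⟨y, hy, rfl⟩ := hx
    exact hm y hy
  have h3 := (h1.subperm h2).length_le
  simpa using h3

/-- number of independent k-sets -/
def fw (w k : ℕ) : ℕ := ((ms k).filter (fun m => w.testBit m)).length

/-- ordered pairs of independent 4-sets meeting in two elements -/
def cw (w : ℕ) : ℕ :=
  (((ms 4) ×ˢ (ms 4)).filter (fun x => w.testBit x.1 && w.testBit x.2 &&
    (pcn (x.1 &&& x.2) == 2))).length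

theorem fw_le {w w' : ℕ} (h : Rel w w') {k : ℕ} (hk : k < 8) : fw w k ≤ fw w' k := by
  obtain ⟨σ, hσ⟩ := h
  unfold fw
  apply len_le (List.Nodup.filter _ (ms_nodup k hk)) (sm σ)
  · intro x hx y hy hxy
    rw [List.mem_filter] at hx hy
    exact sm_inj (ms_spec k hk x hx.1).1 (ms_spec k hk y hy.1).1 hxy
  · intro x hx
    rw [List.mem_filter] at hx ⊢
    exact ⟨sm_mem hk hx.1, sm_ind hσ (ms_spec k hk x hx.1).1 hx.2⟩

theorem cw_le {w w' : ℕ} (h : Rel w w') : cw w ≤ cw w' := by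
  obtain ⟨σ, hσ⟩ := h
  unfold cw
  apply len_le (List.Nodup.filter _ (List.Nodup.product (ms_nodup 4 (by norm_num))
    (ms_nodup 4 (by norm_num)))) (fun x => (sm σ x.1, sm σ x.2))
  · intro x hx y hy hxy
    rw [List.mem_filter, List.mem_product] at hx hy
    rw [Prod.mk.injEq] at hxy
    have hx1 := (ms_spec 4 (by norm_num) x.1 hx.1.1).1
    have hx2 := (ms_spec 4 (by norm_num) x.2 hx.1.2).1
    have hy1 := (ms_spec 4 (by norm_num) y.1 hy.1.1).1
    have hy2 := (ms_spec 4 (by norm_num) y.2 hy.1.2).1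
    exact Prod.ext (sm_inj hx1 hy1 hxy.1) (sm_inj hx2 hy2 hxy.2)
  · intro x hx
    rw [List.mem_filter, List.mem_product] at hx ⊢
    obtain ⟨⟨h1, h2⟩, h3⟩ := hx
    have hx1 := (ms_spec 4 (by norm_num) x.1 h1).1
    have hx2 := (ms_spec 4 (by norm_num) x.2 h2).1
    refine ⟨⟨sm_mem (by norm_num) h1, sm_mem (by norm_num) h2⟩, ?_⟩
    simp only [Bool.and_eq_true, beq_iff_eq] at h3 ⊢
    refine ⟨⟨sm_ind hσ hx1 h3.1.1, sm_ind hσ hx2 h3.1.2⟩, ?_⟩
    rw [sm_and hx1 hx2]
    exact h3.2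

/-- the invariants -/
def inv (w : ℕ) : List ℕ := [fw w 3, fw w 4, fw w 5, fw w 6, cw w]

theorem inv_eq {w w' : ℕ} (h : Rel w w') : inv w = inv w' := by
  unfold inv
  rw [le_antisymm (fw_le h (k := 3) (by norm_num)) (fw_le h.symm (by norm_num)),
    le_antisymm (fw_le h (k := 4) (by norm_num)) (fw_le h.symm (by norm_num)),
    le_antisymm (fw_le h (k := 5) (by norm_num)) (fw_le h.symm (by norm_num)),
    le_antisymm (fw_le h (k := 6) (by norm_num)) (fw_le h.symm (by norm_num)),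
    le_antisymm (cw_le h) (cw_le h.symm)]

theorem inv_nodup : (W.map inv).Nodup := by decide +kernel

end Pool.Agent.W13.Pav
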