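import Pool.Agent.W13.Pav.Blocks
import Pool.Agent.W13.Pav.Mat
/-!
Counting isomorphism classes of simple matroids on seven elements (helper13).
-/
set_option autoImplicit false

namespace Pool.Agent.W13.Pav

open Finset

/-- classes of simple matroids -/
def SS : Set (Set (Matroid V)) :=
  {c | ∃ M : Matroid V, M.E = Set.univ ∧ (∀ C : Set V, M.IsCircuit C → 3 ≤ C.ncard) ∧ c = cls M}

/-- classes of simple paving matroids -/
def PP : Set (Set (Matroid V)) :=
  {c | ∃ M : Matroid V, M.E = Set.univ ∧ (∀ C : Set V, M.IsCircuit C → 3 ≤ C.ncard) ∧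
    (∀ C B : Set V, M.IsCircuit C → M.IsBase B → B.ncard ≤ C.ncard) ∧ c = cls M}

instance : Finite (Matroid V) := by
  apply Finite.of_injective (fun M : Matroid V => (M.E, {B : Set V | M.IsBase B}))
  intro M N h
  rw [Prod.mk.injEq] at h
  refine Matroid.ext_isBase h.1 (fun B _ => ?_)
  have := Set.ext_iff.1 h.2 B
  simpa using this

theorem PP_le : PP.ncard ≤ 50 := by
  classical
  have hsub : PP ⊆ ((L50.map (fun x => K x.1 (x.2.map um))).toFinset : Set (Set (Matroid V))) := by
    rintro c ⟨M, hE, hs, hp, rfl⟩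
    obtain ⟨x, hx, h⟩ := paving_class hE hs hp
    rw [h]
    simp only [List.coe_toFinset, List.mem_map, Set.mem_setOf_eq]
    exact ⟨x, hx, rfl⟩
  refine le_trans (Set.ncard_le_ncard hsub (Finset.finite_toSet _)) ?_
  rw [Set.ncard_coe_finset]
  refine le_trans (List.toFinset_card_le _) ?_
  rw [List.length_map, L50_length]

theorem W_all (w : ℕ) (hw : w ∈ W) : chk w = true := by
  have := W_chk
  rw [List.all_eq_true] at this
  exact this w hw

theorem mem_cls_self {M : Matroid V} (hE : M.E = Set.univ) : M ∈ cls M :=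
  ⟨hE, Equiv.refl _, fun I => by simp⟩

theorem Mw_simple {w : ℕ} (h : chk w = true) (C : Set V) (hC : (Mw w h).IsCircuit C) :
    3 ≤ C.ncard := by
  classical
  by_contra hlt
  obtain ⟨J, rfl⟩ : ∃ J : Finset V, (J : Set V) = C := ⟨C.toFinset, by simp⟩
  rw [Set.ncard_coe_finset] at hlt
  apply hC.dep.not_indep
  rw [Mw_indep]
  exact ind_small (chk_parts h).2.2.1 (by omega)

theorem Mw_mem {w : ℕ} (h : chk w = true) : cls (Mw w h) ∈ SS :=
  ⟨Mw w h, Mw_E w h, Mw_simple h, rfl⟩

theorem Mw_notMem {w : ℕ} (h : chk w = true) : cls (Mw w h) ∉ PP := by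
  rintro ⟨M, hE, hs, hp, hc⟩
  have h1 : Mw w h ∈ cls M := hc ▸ mem_cls_self (Mw_E w h)
  obtain ⟨_, σ, hσ⟩ := h1
  obtain ⟨C, B, hC, hB, hlt⟩ := ind_non (chk_parts h).2.2.2
  rw [← Mw_indep w h] at hC hB
  rw [hσ, ← Finset.coe_image] at hC hB
  obtain ⟨B', hB', hBB⟩ := hB.exists_isBase_superset
  have hd : M.Dep ((C.image σ : Finset V) : Set V) :=
    ⟨hC, by rw [hE]; exact Set.subset_univ _⟩
  obtain ⟨C', hCC, hC'⟩ := hd.exists_isCircuit_subset
  have h2 := hp C' B' hC' hB'
  have h3 := Set.ncard_le_ncard hCC (Set.toFinite _)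
  have h4 := Set.ncard_le_ncard hBB (Set.toFinite _)
  rw [Set.ncard_coe_finset, Finset.card_image_of_injective _ σ.injective] at h3 h4
  omega

theorem rel_of_eq {w w' : ℕ} (h : chk w = true) (h' : chk w' = true)
    (he : cls (Mw w h) = cls (Mw w' h')) : Rel w w' := by
  have h1 : Mw w h ∈ cls (Mw w' h') := he ▸ mem_cls_self (Mw_E w h)
  obtain ⟨_, σ, hσ⟩ := h1
  refine ⟨σ, fun I => ?_⟩
  rw [← Mw_indep w h, hσ, ← Finset.coe_image, Mw_indep]

theorem W_length : W.length = 51 := by decide +kernel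

/-- the non paving classes -/
noncomputable def g (i : Fin W.length) : Set (Matroid V) :=
  cls (Mw (W.get i) (W_all _ (List.get_mem W i)))

theorem g_inj : Function.Injective g := by
  intro i j hij
  have h1 : inv (W.get i) = inv (W.get j) := inv_eq (rel_of_eq _ _ hij)
  have hnd := inv_nodup
  rw [List.nodup_iff_injective_get] at hnd
  have hi : (i : ℕ) < (W.map inv).length := by rw [List.length_map]; exact i.2
  have hj : (j : ℕ) < (W.map inv).length := by rw [List.length_map]; exact j.2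
  have h2 : (⟨i, hi⟩ : Fin (W.map inv).length) = ⟨j, hj⟩ := by
    apply hnd
    simpa using h1
  rw [Fin.mk.injEq] at h2
  exact Fin.ext h2

theorem main : 2 * PP.ncard ≤ SS.ncard := by
  have h1 : PP ∪ Set.range g ⊆ SS := by
    rintro c (⟨M, hE, hs, hp, hc⟩ | ⟨i, rfl⟩)
    · exact ⟨M, hE, hs, hc⟩
    · exact Mw_mem _
  have hdisj : Disjoint PP (Set.range g) := by
    rw [Set.disjoint_right]
    rintro c ⟨i, rfl⟩
    exact Mw_notMem _
  have h2 : (PP ∪ Set.range g).ncard = PP.ncard + (Set.range g).ncard :=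
    Set.ncard_union_eq hdisj (Set.toFinite _) (Set.toFinite _)
  have h3 : (Set.range g).ncard = 51 := by
    rw [← Set.image_univ, Set.ncard_image_of_injective _ g_inj, Set.ncard_univ, Nat.card_fin,
      W_length]
  have h4 := Set.ncard_le_ncard h1 (Set.toFinite _)
  have h5 := PP_le
  omega

end Pool.Agent.W13.Pav
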