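import Pool.Agent.W13.Pav.Data
/-!
Coding of subsets of Fin 7 by masks, matroids from words, isomorphism invariants (helper13).
-/
set_option autoImplicit false

namespace Pool.Agent.W13.Pav

open Finset

/-- the ground set -/
abbrev V := Fin 7

/-- mask of a set -/
def mk (I : Finset V) : ℕ := ∑ i ∈ I, 2 ^ (i : ℕ)

/-- set of a mask -/
def um (m : ℕ) : Finset V := Finset.univ.filter (fun i => m.testBit (i : ℕ) = true)

theorem um_mk : ∀ I : Finset V, um (mk I) = I := by decide +kernel

theorem mk_lt : ∀ I : Finset V, mk I < 128 := by decide +kernel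

theorem mk_um : ∀ m < 128, mk (um m) = m := by decide +kernel

theorem mk_inj {I J : Finset V} (h : mk I = mk J) : I = J := by
  rw [← um_mk I, ← um_mk J, h]

theorem mem_iff (I : Finset V) (e : V) : e ∈ I ↔ (mk I).testBit (e : ℕ) = true := by
  conv_lhs => rw [← um_mk I]
  simp [um]

theorem mk_erase {I : Finset V} {e : V} (h : e ∈ I) : mk (I.erase e) = mk I - 2 ^ (e : ℕ) := by
  have := Finset.sum_erase_add I (fun i : V => 2 ^ (i : ℕ)) h
  unfold mk
  omega

theorem mk_insert {I : Finset V} {e : V} (h : e ∉ I) : mk (insert e I) = mk I + 2 ^ (e : ℕ) := by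
  unfold mk
  rw [Finset.sum_insert h]
  omega

/-- number of elements of a mask -/
def pcn (m : ℕ) : ℕ :=
  m % 2 + m / 2 % 2 + m / 4 % 2 + m / 8 % 2 + m / 16 % 2 + m / 32 % 2 + m / 64 % 2

theorem card_um : ∀ m < 128, (um m).card = pcn m := by decide +kernel

theorem um_inter (a b : ℕ) : um a ∩ um b = um (a &&& b) := by
  ext i; simp [um, Nat.testBit_and]

theorem mem_ms : ∀ m < 128, m ∈ ms (pcn m) := by decide +kernel

theorem mk_mem_ms (I : Finset V) : mk I ∈ ms I.card := by
  have h := mem_ms (mk I) (mk_lt I)
  rwa [← card_um _ (mk_lt I), um_mk] at h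

theorem ms_spec : ∀ k < 8, ∀ m ∈ ms k, m < 128 ∧ pcn m = k := by decide +kernel

theorem ms_nodup : ∀ k < 8, (ms k).Nodup := by decide +kernel

/-- down closure check -/
def chkDown (w : ℕ) : Bool :=
  (List.range 128).all fun m => !w.testBit m ||
    (List.range 7).all fun e => !m.testBit e || w.testBit (m - 2 ^ e)

/-- augmentation check -/
def chkAug (w : ℕ) : Bool :=
  (List.range 7).all fun k => (ms k).all fun a => !w.testBit a ||
    (ms (k + 1)).all fun b => !w.testBit b ||
      (List.range 7).any fun e => b.testBit e && !a.testBit e && w.testBit (a + 2 ^ e)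

/-- sets with at most two elements are independent -/
def chkSimple (w : ℕ) : Bool :=
  (List.range 3).all fun k => (ms k).all fun a => w.testBit a

/-- non paving -/
def chkNon (w : ℕ) : Bool :=
  (List.range 7).any fun k => (ms k).any fun a => !w.testBit a &&
    (ms (k + 1)).any fun b => w.testBit b

/-- all checks -/
def chk (w : ℕ) : Bool := chkDown w && chkAug w && chkSimple w && chkNon w

theorem W_chk : W.all chk = true := by decide +kernel

end Pool.Agent.W13.Pav
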