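import Pool.Agent.W13.Pav.Cls
/-!
Block list of a simple paving matroid on Fin 7 (helper13).
-/
set_option autoImplicit false

namespace Pool.Agent.W13.Pav

open Finset

variable {M : Matroid V}

theorem indep_of_card_lt (hE : M.E = Set.univ) {r : ℕ}
    (hC : ∀ C : Set V, M.IsCircuit C → r ≤ C.ncard) {I : Finset V} (hI : I.card < r) :
    M.Indep (I : Set V) := by
  by_contra hcon
  have hd : M.Dep (I : Set V) := ⟨hcon, by rw [hE]; exact Set.subset_univ _⟩
  obtain ⟨C, hCI, hCc⟩ := hd.exists_isCircuit_subset
  have h1 := hC C hCc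
  have h2 : C.ncard ≤ (I : Set V).ncard := Set.ncard_le_ncard hCI (Finset.finite_toSet I)
  rw [Set.ncard_coe_finset] at h2
  omega

theorem card_le_of_indep {r : ℕ} (hB : ∀ B : Set V, M.IsBase B → B.ncard = r)
    {I : Finset V} (hI : M.Indep (I : Set V)) : I.card ≤ r := by
  obtain ⟨B, hBb, hIB⟩ := hI.exists_isBase_superset
  have h2 : (I : Set V).ncard ≤ B.ncard := Set.ncard_le_ncard hIB (Set.toFinite _)
  rw [Set.ncard_coe_finset, hB B hBb] at h2
  exact h2

theorem card_le_of_closure {J I : Finset V} (hJ : M.Indep (J : Set V)) (hI : M.Indep (I : Set V))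
    (h : (I : Set V) ⊆ M.closure (J : Set V)) :
    I.card ≤ J.card ∧ (I.card = J.card → M.closure (I : Set V) = M.closure (J : Set V)) := by
  obtain ⟨K, hK, hIK⟩ := hI.subset_isBasis_of_subset h (M.closure_subset_ground _)
  have h1 := hJ.isBasis_closure
  have h2 : K.encard = (J : Set V).encard := hK.encard_eq_encard h1
  have h3 : K.ncard = (J : Set V).ncard := by
    unfold Set.ncard; rw [h2]
  rw [Set.ncard_coe_finset] at h3
  have h4 : (I : Set V).ncard ≤ K.ncard := Set.ncard_le_ncard hIK (Set.toFinite _)
  rw [Set.ncard_coe_finset] at h4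
  refine ⟨by omega, fun h5 => ?_⟩
  have h6 : (I : Set V) = K := by
    apply Set.eq_of_subset_of_ncard_le hIK _ (Set.toFinite _)
    rw [Set.ncard_coe_finset]; omega
  rw [h6, hK.closure_eq_closure, Matroid.closure_closure]

open Classical in
/-- the block list -/
noncomputable def blocks (M : Matroid V) (r : ℕ) : List (Finset V) :=
  (univ.filter (fun H : Finset V => r ≤ H.card ∧ ∃ J : Finset V, J.card + 1 = r ∧
    M.closure (J : Set V) = (H : Set V))).toList

theorem mem_blocks {r : ℕ} {H : Finset V} : H ∈ blocks M r ↔ (r ≤ H.card ∧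
    ∃ J : Finset V, J.card + 1 = r ∧ M.closure (J : Set V) = (H : Set V)) := by
  unfold blocks
  simp

theorem blocks_good (hE : M.E = Set.univ) {r : ℕ}
    (hB : ∀ B : Set V, M.IsBase B → B.ncard = r)
    (hC : ∀ C : Set V, M.IsCircuit C → r ≤ C.ncard) : Good r (blocks M r) := by
  constructor
  · intro A hA
    rw [mem_blocks] at hA
    obtain ⟨h1, J, hJ, hJA⟩ := hA
    refine ⟨h1, ?_⟩
    by_contra h7
    have h8 : A = univ := by
      apply Finset.eq_univ_of_card
      have := Finset.card_le_univ A
      simp at this ⊢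
      omega
    have hJi : M.Indep (J : Set V) := indep_of_card_lt hE hC (by omega)
    have h9 : M.IsBase (J : Set V) := by
      rw [hJi.isBase_iff_ground_subset_closure, hJA, h8]
      simp
    have := hB _ h9
    rw [Set.ncard_coe_finset] at this
    omega
  · apply List.Nodup.pairwise_of_forall_ne
    · unfold blocks; exact Finset.nodup_toList _
    · intro A hA B hBm hne
      by_contra hlt
      rw [mem_blocks] at hA hBm
      obtain ⟨_, J, hJ, hJA⟩ := hA
      obtain ⟨_, L, hL, hLB⟩ := hBm
      obtain ⟨K, hK1, hK2⟩ := Finset.exists_subset_card_eq (s := A ∩ B) (n := J.card) (by omega)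
      have hJi : M.Indep (J : Set V) := indep_of_card_lt hE hC (by omega)
      have hLi : M.Indep (L : Set V) := indep_of_card_lt hE hC (by omega)
      have hKi : M.Indep (K : Set V) := indep_of_card_lt hE hC (by omega)
      have e1 : M.closure (K : Set V) = M.closure (J : Set V) := by
        apply (card_le_of_closure hJi hKi _).2 hK2
        rw [hJA]
        exact_mod_cast hK1.trans Finset.inter_subset_left
      have e2 : M.closure (K : Set V) = M.closure (L : Set V) := by
        apply (card_le_of_closure hLi hKi _).2 (by omega)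
        rw [hLB]
        exact_mod_cast hK1.trans Finset.inter_subset_right
      apply hne
      have : (A : Set V) = (B : Set V) := by rw [← hJA, ← hLB, ← e1, ← e2]
      exact_mod_cast this

theorem blocks_indep (hE : M.E = Set.univ) {r : ℕ} (hr : 1 ≤ r)
    (hB : ∀ B : Set V, M.IsBase B → B.ncard = r)
    (hC : ∀ C : Set V, M.IsCircuit C → r ≤ C.ncard) (I : Finset V) :
    M.Indep (I : Set V) ↔ IndL r (blocks M r) I := by
  constructor
  · intro hI
    refine ⟨card_le_of_indep hB hI, fun hc A hA hIA => ?_⟩
    rw [mem_blocks] at hA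
    obtain ⟨_, J, hJ, hJA⟩ := hA
    have hJi : M.Indep (J : Set V) := indep_of_card_lt hE hC (by omega)
    have := (card_le_of_closure hJi hI (by rw [hJA]; exact_mod_cast hIA)).1
    omega
  · rintro ⟨h1, h2⟩
    rcases Nat.lt_or_ge I.card r with hlt | hge
    · exact indep_of_card_lt hE hC hlt
    · have hc : I.card = r := le_antisymm h1 hge
      by_contra hcon
      obtain ⟨e, he⟩ : I.Nonempty := by
        rw [← Finset.card_pos]; omega
      have hJc : (I.erase e).card + 1 = r := by
        rw [Finset.card_erase_of_mem he]; omega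
      have hJi : M.Indep ((I.erase e : Finset V) : Set V) := indep_of_card_lt hE hC (by omega)
      have he' : e ∉ ((I.erase e : Finset V) : Set V) := by simp
      have hins : insert e ((I.erase e : Finset V) : Set V) = (I : Set V) := by
        rw [← Finset.coe_insert, Finset.insert_erase he]
      have hdep : e ∈ M.closure ((I.erase e : Finset V) : Set V) := by
        rw [hJi.mem_closure_iff_of_notMem he', hins]
        exact ⟨hcon, by rw [hE]; exact Set.subset_univ _⟩
      classical
      obtain ⟨H, hH⟩ : ∃ H : Finset V, (H : Set V) = M.closure ((I.erase e : Finset V) : Set V) :=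
        ⟨(M.closure ((I.erase e : Finset V) : Set V)).toFinset, by simp⟩
      have hIH : I ⊆ H := by
        intro x hx
        by_cases hxe : x = e
        · have : x ∈ (H : Set V) := by rw [hH, hxe]; exact hdep
          exact_mod_cast this
        · have h3 : x ∈ ((I.erase e : Finset V) : Set V) := by simp [hx, hxe]
          have h4 := M.subset_closure ((I.erase e : Finset V) : Set V)
            (by rw [hE]; exact Set.subset_univ _) h3
          rw [← hH] at h4
          exact_mod_cast h4
      refine h2 hc H ?_ hIH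
      rw [mem_blocks]
      refine ⟨?_, I.erase e, hJc, hH.symm⟩
      rw [← hc]
      exact Finset.card_le_card hIH

theorem blocks_two (hE : M.E = Set.univ)
    (hB : ∀ B : Set V, M.IsBase B → B.ncard = 2)
    (hC : ∀ C : Set V, M.IsCircuit C → 3 ≤ C.ncard) : blocks M 2 = [] := by
  rw [List.eq_nil_iff_forall_not_mem]
  intro A hA
  have hA' := mem_blocks.1 hA
  obtain ⟨I, hIA, hI⟩ := Finset.exists_subset_card_eq hA'.1
  have h1 : M.Indep (I : Set V) := indep_of_card_lt hE hC (by omega)
  have h2 := (blocks_indep hE (by norm_num) hB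
    (fun C hCc => le_trans (by norm_num) (hC C hCc)) I).1 h1
  exact h2.2 hI A hA hIA

/-- every simple paving matroid on Fin 7 has its class in the list -/
theorem paving_class (hE : M.E = Set.univ)
    (hs : ∀ C : Set V, M.IsCircuit C → 3 ≤ C.ncard)
    (hp : ∀ C B : Set V, M.IsCircuit C → M.IsBase B → B.ncard ≤ C.ncard) :
    ∃ x ∈ L50, cls M = K x.1 (x.2.map um) := by
  obtain ⟨B0, hB0⟩ := M.exists_isBase
  set r := B0.ncard with hr
  have hB : ∀ B : Set V, M.IsBase B → B.ncard = r := fun B hBb => hBb.ncard_eq_ncard_of_isBase hB0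
  have hC : ∀ C : Set V, M.IsCircuit C → r ≤ C.ncard := fun C hCc => hp C B0 hCc hB0
  have hr2 : 2 ≤ r := by
    have h1 : M.Indep (({0, 1} : Finset V) : Set V) := indep_of_card_lt hE hs (by decide)
    have := card_le_of_indep hB h1
    simpa using this
  have hr7 : r ≤ 7 := by
    have := Set.ncard_le_ncard (Set.subset_univ B0) (Set.toFinite _)
    simpa [Set.ncard_univ] using this
  rcases Nat.eq_or_lt_of_le hr2 with h2 | h3
  · have hbl := blocks_two hE (fun B hBb => by rw [hB B hBb, ← h2]) hs
    have hi := blocks_indep hE (r := 2) (by norm_num) (fun B hBb => by rw [hB B hBb, ← h2])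
      (fun C hCc => le_trans (by norm_num) (hs C hCc))
    rw [hbl] at hi
    refine ⟨(2, []), by unfold L50; simp, ?_⟩
    exact cls_eq_K hi (Equiv.refl _) (by simp)
  · have hg := blocks_good hE hB hC
    obtain ⟨x, hx, hxr, σ, hσ⟩ := classify_all h3 hr7 _ hg
    refine ⟨x, hx, ?_⟩
    rw [hxr]
    exact cls_eq_K (blocks_indep hE (by omega) hB hC) σ hσ

end Pool.Agent.W13.Pav
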