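import Pool.Agent.W13.Pav.Basic
/-!
Classification of the block families (helper13).
-/
set_option autoImplicit false

namespace Pool.Agent.W13.Pav

open Finset

/-- block families of paving matroids of rank r -/
def Good (r : ℕ) (F : List (Finset V)) : Prop :=
  (∀ A ∈ F, r ≤ A.card ∧ A.card ≤ 6) ∧ F.Pairwise (fun A B => (A ∩ B).card + 2 ≤ r)

/-- compatibility of a block with a family of masks -/
def compat (r : ℕ) (rep : List ℕ) (b : ℕ) : Bool :=
  decide (r ≤ pcn b) && decide (pcn b ≤ 6) && rep.all (fun c => decide (pcn (b &&& c) + 2 ≤ r))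

/-- self map of V with code p -/
def pf (p : ℕ) : V → V := fun i => Fin.ofNat 7 (p / 8 ^ (i : ℕ) % 8)

/-- validity of a table entry -/
def entOK (TB : List (List ℕ × List (ℕ × ℕ × ℕ))) (rep : List ℕ) (b : ℕ) (e : ℕ × ℕ × ℕ) : Bool :=
  (e.1 == b) && decide (Function.Injective (pf e.2.2)) && decide (e.2.1 < TB.length) &&
    List.isPerm ((b :: rep).map (fun c => mk ((um c).image (pf e.2.2)))) (TB.getD e.2.1 ([], [])).1

/-- validity of a table -/
def chkTB (r : ℕ) (TB : List (List ℕ × List (ℕ × ℕ × ℕ))) : Bool :=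
  (TB.any fun row => row.1 == []) &&
  TB.all fun row => (row.1.all fun c => decide (c < 128)) &&
    (List.range 128).all fun b => !(compat r row.1 b) || row.2.any (entOK TB row.1 b)

theorem TB3_ok : chkTB 3 TB3 = true := by decide +kernel
theorem TB4_ok : chkTB 4 TB4 = true := by decide +kernel
theorem TB5_ok : chkTB 5 TB5 = true := by decide +kernel
theorem TB6_ok : chkTB 6 TB6 = true := by decide +kernel
theorem TB7_ok : chkTB 7 [([], [])] = true := by decide +kernel

theorem good_tail {r : ℕ} {A : Finset V} {F : List (Finset V)} (h : Good r (A :: F)) :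
    Good r F := by
  refine ⟨fun B hB => h.1 B (List.mem_cons_of_mem _ hB), ?_⟩
  have := h.2
  rw [List.pairwise_cons] at this
  exact this.2

theorem classify {r : ℕ} {TB : List (List ℕ × List (ℕ × ℕ × ℕ))} (hTB : chkTB r TB = true) :
    ∀ F : List (Finset V), Good r F → ∃ row ∈ TB, ∃ σ : Equiv.Perm V,
      (F.map (fun A => A.image σ)).Perm (row.1.map um) := by
  unfold chkTB at hTB
  rw [Bool.and_eq_true, List.any_eq_true, List.all_eq_true] at hTB
  obtain ⟨⟨row0, hrow0, h0⟩, hall⟩ := hTB
  intro F
  induction F with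
  | nil =>
    intro _
    refine ⟨row0, hrow0, Equiv.refl _, ?_⟩
    rw [beq_iff_eq] at h0
    rw [h0]
    simp
  | cons A F ih =>
    intro hG
    obtain ⟨row, hrow, σ, hσ⟩ := ih (good_tail hG)
    have h1 := hall row hrow
    rw [Bool.and_eq_true, List.all_eq_true, List.all_eq_true] at h1
    obtain ⟨hlt, h2⟩ := h1
    have hlt' : ∀ c ∈ row.1, c < 128 := fun c hc => by simpa using hlt c hc
    set b := mk (A.image σ) with hb
    have hb128 : b < 128 := mk_lt _
    have hub : um b = A.image σ := um_mk _
    have h3 := h2 b (List.mem_range.2 hb128)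
    have hcompat : compat r row.1 b = true := by
      unfold compat
      rw [Bool.and_eq_true, Bool.and_eq_true, List.all_eq_true]
      have hA := hG.1 A List.mem_cons_self
      have hcb : pcn b = A.card := by
        rw [← card_um b hb128, hub, Finset.card_image_of_injective _ σ.injective]
      refine ⟨⟨?_, ?_⟩, ?_⟩
      · rw [decide_eq_true_iff, hcb]; exact hA.1
      · rw [decide_eq_true_iff, hcb]; exact hA.2
      · intro c hc
        rw [decide_eq_true_iff]
        have hc1 : um c ∈ row.1.map um := List.mem_map.2 ⟨c, hc, rfl⟩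
        have hc2 := hσ.mem_iff.2 hc1
        rw [List.mem_map] at hc2
        obtain ⟨B, hB, hBc⟩ := hc2
        have h4 : b &&& c < 128 := lt_of_le_of_lt Nat.and_le_left hb128
        rw [← card_um _ h4, ← um_inter, hub, ← hBc, ← Finset.image_inter _ _ σ.injective,
          Finset.card_image_of_injective _ σ.injective]
        have := hG.2
        rw [List.pairwise_cons] at this
        exact this.1 B hB
    rw [hcompat] at h3
    simp only [Bool.not_true, Bool.false_or] at h3
    rw [List.any_eq_true] at h3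
    obtain ⟨e, he, h5⟩ := h3
    unfold entOK at h5
    rw [Bool.and_eq_true, Bool.and_eq_true, Bool.and_eq_true, decide_eq_true_iff,
      decide_eq_true_iff] at h5
    obtain ⟨⟨⟨_, hinj⟩, hlen⟩, hperm⟩ := h5
    rw [List.isPerm_iff] at hperm
    let τ : Equiv.Perm V := Equiv.ofBijective (pf e.2.2) (Finite.injective_iff_bijective.1 hinj)
    have hτ : ∀ x, τ x = pf e.2.2 x := fun x => rfl
    refine ⟨TB.getD e.2.1 ([], []), ?_, σ.trans τ, ?_⟩
    · rw [List.getD_eq_getElem _ _ hlen]
      exact List.getElem_mem hlen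
    · have h6 := hperm.map um
      refine List.Perm.trans ?_ h6
      rw [List.map_map]
      have hcomp : (um ∘ fun c => mk ((um c).image (pf e.2.2))) =
          fun c => (um c).image (pf e.2.2) := by
        funext c; simp only [Function.comp_apply, um_mk]
      rw [hcomp, List.map_cons, List.map_cons, hub]
      have h7 : ∀ B : Finset V, B.image (σ.trans τ) = (B.image σ).image (pf e.2.2) := by
        intro B
        rw [Finset.image_image]
        rfl
      rw [h7]
      refine List.Perm.cons _ ?_
      have h8 := hσ.map (fun B : Finset V => B.image (pf e.2.2))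
      rw [List.map_map, List.map_map] at h8
      have h9 : (fun B : Finset V => B.image (σ.trans τ)) =
          ((fun B : Finset V => B.image (pf e.2.2)) ∘ fun A => A.image σ) := by
        funext B; exact h7 B
      rw [h9]
      exact h8

/-- independence in the paving matroid of rank r with block list F -/
def IndL (r : ℕ) (F : List (Finset V)) (I : Finset V) : Prop :=
  I.card ≤ r ∧ (I.card = r → ∀ A ∈ F, ¬ I ⊆ A)

theorem indL_perm {r : ℕ} {F G : List (Finset V)} (h : F.Perm G) (I : Finset V) :
    IndL r F I ↔ IndL r G I := by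
  unfold IndL
  simp only [h.mem_iff]

theorem indL_map {r : ℕ} (σ : Equiv.Perm V) (F : List (Finset V)) (I : Finset V) :
    IndL r F I ↔ IndL r (F.map (fun A => A.image σ)) (I.image σ) := by
  unfold IndL
  rw [Finset.card_image_of_injective _ σ.injective]
  simp only [List.mem_map, forall_exists_index, and_imp, forall_apply_eq_imp_iff₂,
    Finset.image_subset_image_iff σ.injective]

/-- isomorphism class given by block list -/
def K (r : ℕ) (F : List (Finset V)) : Set (Matroid V) :=
  {N | N.E = Set.univ ∧ ∃ σ : Equiv.Perm V, ∀ I : Finset V,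
    N.Indep (I : Set V) ↔ IndL r F (I.image σ)}

/-- isomorphism class of a matroid -/
def cls (M : Matroid V) : Set (Matroid V) :=
  {N | N.E = Set.univ ∧ ∃ σ : Equiv.Perm V, ∀ I : Set V, N.Indep I ↔ M.Indep (σ '' I)}

theorem cls_eq_K {M : Matroid V} {r : ℕ} {F : List (Finset V)}
    (hM : ∀ I : Finset V, M.Indep (I : Set V) ↔ IndL r F I) (τ : Equiv.Perm V)
    {G : List (Finset V)} (hG : (F.map (fun A => A.image τ)).Perm G) :
    cls M = K r G := by
  have key : ∀ J : Finset V, M.Indep (J : Set V) ↔ IndL r G (J.image τ) := by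
    intro J
    rw [hM, indL_map τ, indL_perm hG]
  ext N
  constructor
  · rintro ⟨hE, σ, hσ⟩
    refine ⟨hE, σ.trans τ, fun I => ?_⟩
    rw [hσ, ← Finset.coe_image, key, Finset.image_image]
    rfl
  · rintro ⟨hE, σ, hσ⟩
    refine ⟨hE, σ.trans τ.symm, fun I => ?_⟩
    classical
    obtain ⟨J, rfl⟩ : ∃ J : Finset V, (J : Set V) = I := ⟨I.toFinset, by simp⟩
    rw [hσ, ← Finset.coe_image, key, Finset.image_image]
    have : (τ ∘ (σ.trans τ.symm) : V → V) = σ := by
      funext x; simp
    rw [this]

/-- the list of all codes -/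
def L50 : List (ℕ × List ℕ) :=
  [(2, [])] ++ TB3.map (fun row => (3, row.1)) ++ TB4.map (fun row => (4, row.1)) ++
    TB5.map (fun row => (5, row.1)) ++ TB6.map (fun row => (6, row.1)) ++ [(7, [])]

theorem L50_length : L50.length = 50 := by decide +kernel

theorem classify_all {r : ℕ} (h2 : 3 ≤ r) (h7 : r ≤ 7) (F : List (Finset V)) (hF : Good r F) :
    ∃ x ∈ L50, x.1 = r ∧ ∃ σ : Equiv.Perm V,
      (F.map (fun A => A.image σ)).Perm (x.2.map um) := by
  have h : r = 3 ∨ r = 4 ∨ r = 5 ∨ r = 6 ∨ r = 7 := by omega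
  rcases h with rfl | rfl | rfl | rfl | rfl
  · obtain ⟨row, hrow, σ, hσ⟩ := classify TB3_ok F hF
    exact ⟨(3, row.1), by
      unfold L50; simp only [List.mem_append, List.mem_map]
      exact Or.inl (Or.inl (Or.inl (Or.inl (Or.inr ⟨row, hrow, rfl⟩)))), rfl, σ, hσ⟩
  · obtain ⟨row, hrow, σ, hσ⟩ := classify TB4_ok F hF
    exact ⟨(4, row.1), by
      unfold L50; simp only [List.mem_append, List.mem_map]
      exact Or.inl (Or.inl (Or.inl (Or.inr ⟨row, hrow, rfl⟩))), rfl, σ, hσ⟩
  · obtain ⟨row, hrow, σ, hσ⟩ := classify TB5_ok F hF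
    exact ⟨(5, row.1), by
      unfold L50; simp only [List.mem_append, List.mem_map]
      exact Or.inl (Or.inl (Or.inr ⟨row, hrow, rfl⟩)), rfl, σ, hσ⟩
  · obtain ⟨row, hrow, σ, hσ⟩ := classify TB6_ok F hF
    exact ⟨(6, row.1), by
      unfold L50; simp only [List.mem_append, List.mem_map]
      exact Or.inl (Or.inr ⟨row, hrow, rfl⟩), rfl, σ, hσ⟩
  · obtain ⟨row, hrow, σ, hσ⟩ := classify TB7_ok F hF
    rw [List.mem_singleton] at hrow
    subst hrow
    exact ⟨(7, []), by
      unfold L50; simp, rfl, σ, hσ⟩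

end Pool.Agent.W13.Pav
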